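import Pool.Agent.helper16.SCV.Spec

set_option autoImplicit false

namespace Pool.Agent.SCV

open Finset Pool.Agent.SCT

theorem ALM (hLOC : LOC_stmt) (hUPC : UPC_stmt) (hPWC : PWC_stmt) : ALM_stmt := by
  classical
  intro κ A hκ
  obtain ⟨x₁, h1⟩ := hLOC (κ / 4) (A + 1) (by linarith)
  obtain ⟨x₂, h2⟩ := hUPC (κ / 4) (A + 1) (by linarith)
  obtain ⟨x₃, h3⟩ := hPWC
  -- large `x`
  have e1 : ∀ᶠ x : ℕ in Filter.atTop, 2 ≤ Real.log x ∧ 10 / Real.log x ≤ κ / 4 := by
    have hl : Filter.Tendsto (fun x : ℕ => Real.log x) Filter.atTop Filter.atTop :=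
      Real.tendsto_log_atTop.comp tendsto_natCast_atTop_atTop
    filter_upwards [hl.eventually_ge_atTop (max 2 (40 / κ))] with x hx
    have ha : 2 ≤ Real.log x := (le_max_left _ _).trans hx
    have hb : 40 / κ ≤ Real.log x := (le_max_right _ _).trans hx
    refine ⟨ha, ?_⟩
    rw [div_le_iff₀ (by linarith)]
    rw [div_le_iff₀ hκ] at hb
    linarith
  have e2 : ∀ᶠ x : ℕ in Filter.atTop, (x : ℝ) ^ (-(1 / 10) : ℝ) ≤ κ / 4 := by
    have hl : Filter.Tendsto (fun x : ℕ => (x : ℝ) ^ (-(1 / 10) : ℝ)) Filter.atTop (nhds 0) :=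
      (tendsto_rpow_neg_atTop (by norm_num : (0 : ℝ) < 1 / 10)).comp tendsto_natCast_atTop_atTop
    exact hl.eventually_le_const (by linarith)
  obtain ⟨x₄, h4⟩ := Filter.eventually_atTop.mp (e1.and e2)
  refine ⟨max (max x₁ x₂) (max x₃ (max x₄ 1)), ?_⟩
  intro x hx B hB1 hB2
  have hx1 : x₁ ≤ x := (le_max_left _ _).trans ((le_max_left _ _).trans hx)
  have hx2 : x₂ ≤ x := (le_max_right _ _).trans ((le_max_left _ _).trans hx)
  have hx3 : x₃ ≤ x := (le_max_left _ _).trans ((le_max_right _ _).trans hx)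
  have hx4 : x₄ ≤ x := (le_max_left _ _).trans ((le_max_right _ _).trans ((le_max_right _ _).trans hx))
  have hx5 : 1 ≤ x := (le_max_right _ _).trans ((le_max_right _ _).trans ((le_max_right _ _).trans hx))
  obtain ⟨⟨hL2, hL10⟩, hpow⟩ := h4 x hx4
  have hx5' : (1 : ℝ) ≤ x := by exact_mod_cast hx5
  set L := Real.log x with hL
  have hL0 : 0 < L := by linarith
  have hB0 : (0 : ℝ) ≤ B := by positivity
  have hBh : (x : ℝ) ^ (1 / 2 : ℝ) ≤ B :=
    (Real.rpow_le_rpow_of_exponent_le hx5' (by norm_num)).trans hB1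
  have hsub : ((Ioc x (2 * x)).filter fun n => κ * (B / (2 * L)) < |(cnb B n : ℝ) - B / (2 * L)|) ⊆
      ((Ioc x (2 * x)).filter fun m => Wm B m ≤ (1 - κ / 4) * B) ∪
      ((Ioc x (2 * x)).filter fun m => (1 + κ / 4) * B ≤ Wm B m) := by
    intro n hn
    rw [mem_filter] at hn
    rw [mem_union, mem_filter, mem_filter]
    by_contra hcon
    rw [not_or] at hcon
    have ha : (1 - κ / 4) * B < Wm B n := by
      by_contra h
      exact hcon.1 ⟨hn.1, not_lt.mp h⟩
    have hb : Wm B n < (1 + κ / 4) * B := by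
      by_contra h
      exact hcon.2 ⟨hn.1, not_lt.mp h⟩
    obtain ⟨p1, p2⟩ := h3 x hx3 B hBh hB2 n hn.1
    rw [← hL] at p1 p2
    set c : ℝ := (cnb B n : ℝ) with hc
    have hc0 : 0 ≤ c := by
      rw [hc]
      positivity
    have hD : (B : ℝ) = (2 * L) * (B / (2 * L)) := by
      field_simp
    set D : ℝ := (B : ℝ) / (2 * L) with hDdef
    have hD0 : 0 ≤ D := by
      rw [hDdef]
      positivity
    have hup : c - D ≤ κ * D := by
      have q1 : (2 * L) * c < (2 * L) * ((1 + κ / 4) * D) := by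
        calc (2 * L) * c ≤ Wm B n := p1
          _ < (1 + κ / 4) * B := hb
          _ = (2 * L) * ((1 + κ / 4) * D) := by rw [hD]; ring
      have q2 := lt_of_mul_lt_mul_left q1 (by linarith)
      nlinarith
    have hlo : -(κ * D) ≤ c - D := by
      rcases le_or_gt κ 1 with hk | hk
      · -- `c (1 + 10/L) + D x^(-1/10) ≥ (1-κ/4) D`
        have q1 : (2 * L) * ((1 - κ / 4) * D) < (2 * L) * ((1 + 10 / L) * c + D * (x : ℝ) ^ (-(1 / 10) : ℝ)) := by
          calc (2 * L) * ((1 - κ / 4) * D) = (1 - κ / 4) * B := by rw [hD]; ring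
            _ < Wm B n := ha
            _ ≤ 2 * L * (1 + 10 / L) * c + B * (x : ℝ) ^ (-(1 / 10) : ℝ) := p2
            _ = (2 * L) * ((1 + 10 / L) * c + D * (x : ℝ) ^ (-(1 / 10) : ℝ)) := by rw [hD]; ring
        have q2 := lt_of_mul_lt_mul_left q1 (by linarith)
        have q3 : (1 + 10 / L) * c ≤ (1 + κ / 4) * c := mul_le_mul_of_nonneg_right (by linarith) hc0
        have q4 : D * (x : ℝ) ^ (-(1 / 10) : ℝ) ≤ D * (κ / 4) := mul_le_mul_of_nonneg_left hpow hD0
        have q5 : (1 - κ / 2) * D ≤ (1 + κ / 4) * c := by linarith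
        by_contra hcon2
        rw [not_le] at hcon2
        have q6 : c < (1 - κ) * D := by linarith
        have q7 : (1 + κ / 4) * c ≤ (1 + κ / 4) * ((1 - κ) * D) := mul_le_mul_of_nonneg_left q6.le (by linarith)
        have q8 : (1 + κ / 4) * ((1 - κ) * D) ≤ (1 - κ / 2) * D := by
          have : (1 + κ / 4) * (1 - κ) ≤ 1 - κ / 2 := by nlinarith
          calc (1 + κ / 4) * ((1 - κ) * D) = ((1 + κ / 4) * (1 - κ)) * D := by ring
            _ ≤ (1 - κ / 2) * D := mul_le_mul_of_nonneg_right this hD0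
        have q9 : (1 + κ / 4) * c < (1 + κ / 4) * ((1 - κ) * D) := mul_lt_mul_of_pos_left q6 (by linarith)
        linarith
      · nlinarith
    have habs : |c - D| ≤ κ * D := abs_le.mpr ⟨hlo, hup⟩
    exact absurd hn.2 (not_lt.mpr habs)
  have hcard : (#((Ioc x (2 * x)).filter fun n => κ * (B / (2 * L)) < |(cnb B n : ℝ) - B / (2 * L)|) : ℝ) ≤
      (#((Ioc x (2 * x)).filter fun m => Wm B m ≤ (1 - κ / 4) * B) : ℝ) +
      (#((Ioc x (2 * x)).filter fun m => (1 + κ / 4) * B ≤ Wm B m) : ℝ) := by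
    have := (card_le_card hsub).trans (card_union_le _ _)
    exact_mod_cast this
  have r1 := h1 x hx1 B hB1 hB2
  have r2 := h2 x hx2 B hB1 hB2
  rw [← hL] at r1 r2
  refine hcard.trans ((add_le_add r1 r2).trans ?_)
  have r3 : (x : ℝ) / L ^ (A + 1) + x / L ^ (A + 1) = (x / L ^ A) * (2 / L) := by
    rw [pow_succ]
    field_simp
    ring
  rw [r3]
  have r4 : 2 / L ≤ 1 := by
    rw [div_le_one hL0]
    exact hL2
  have r5 : 0 ≤ (x : ℝ) / L ^ A := by positivity
  calc (x / L ^ A) * (2 / L) ≤ (x / L ^ A) * 1 := mul_le_mul_of_nonneg_left r4 r5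
    _ = x / L ^ A := mul_one _

end Pool.Agent.SCV
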